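import Pool.Agent.Y101.Sf.Bloch

/-!
# Bloch's conjecture for `p_g = 0` and the self-intersection of the canonical class
-/

open CategoryTheory AlgebraicGeometry

universe u v w

namespace Pool.Agent.Results.MP_7ebcb6_ag.CanonicalSelfIntersection

open Pool.Agent.H914 Pool.Agent.H914.VarClass Pool.Agent.H914.VarClass.Obj Pool.Agent.W492.BB
  Pool.Agent.TH133 Pool.Agent.Y101.Sf

/-- Surfaces over an algebraically closed field of characteristic zero, for example over the
complex numbers. The following are equivalent (the first item is Bloch's conjecture for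
the surfaces with `p_g = q = 0`, which are the open cases for `p_g = 0`):
* for all surfaces `X` with `p_g = q = 0` the zero-cycles of degree zero are zero in `CH_0(X)_ℚ`;
* for all surfaces `S` with `p_g = q = 0` such that the self-intersection `K_S^2` of the canonical
  class has degree zero, `K_S^2` is zero in `CH_0(S)_ℚ`;
* for all surfaces `S` with `p_g = q = 0` and all divisors `D` on `S` such that `D^2` has degree zero,
  `D^2` is zero in `CH_0(S)_ℚ`.

Moreover, for each surface `X` such that `K_X^2` has degree `d ≥ 1` (for example, a minimal surface of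
general type) the following are equivalent:
* the zero-cycles of degree zero on `X` are zero in `CH_0(X)_ℚ`;
* for all blow-ups `S` of `X` in `d` distinct points `K_S^2` is zero in `CH_0(S)_ℚ`;
* for all blow-ups `S` of `X` in finitely many points and all divisors `D` on `S` such that `D^2` has
  degree zero, `D^2` is zero in `CH_0(S)_ℚ`. -/
theorem result {k : Type u} [Field k] {𝒱 : VarClass k} {C : TheoryData.{u, v, 0} 𝒱 ℚ}
    [IsChowProj C] {K : Type w} [Field K] {H : WeilTheoryData.{u, v, w} C K} [IsWeilProj H]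
    {L : ∀ X : 𝒱.Obj, Set (C.A X)} {can : ∀ X : 𝒱.Obj, C.A X} {U : 𝒱.Obj}
    (hP : HasPoints C U) (hD : IsDivisorTheory C L can) (hb : PointsBlowUp H L can U)
    (hg : GeneralTypeOrKnown H L can) :
    List.TFAE [
      ∀ X : 𝒱.Obj, IsPgQZero H L X → TrivialZeroCycles C X,
      ∀ S : 𝒱.Obj, IsPgQZero H L S → HasDegree C (C.mul (can S) (can S)) 0 →
        C.mul (can S) (can S) = 0,
      ∀ S : 𝒱.Obj, IsPgQZero H L S → ∀ D ∈ L S, HasDegree C (C.mul D D) 0 → C.mul D D = 0] ∧
    ∀ (X : 𝒱.Obj) (d : ℕ), X.dim = 2 → 1 ≤ d → HasDegree C (C.mul (can X) (can X)) d →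
      List.TFAE [
        TrivialZeroCycles C X,
        ∀ (S : 𝒱.Obj) (π : S ⟶ X) (z : C.A X) (e : C.A S), IsPointSet C U d z →
          IsBlowUp C L can π z e → C.mul (can S) (can S) = 0,
        ∀ (S : 𝒱.Obj) (π : S ⟶ X) (n : ℕ) (z : C.A X) (e : C.A S), IsPointSet C U n z →
          IsBlowUp C L can π z e → ∀ D ∈ L S, HasDegree C (C.mul D D) 0 → C.mul D D = 0] :=
  ⟨global_tfae hP hD hb hg, fun _ d hX hd hdeg => local_tfae hP hD hb hX d hd hdeg⟩

end Pool.Agent.Results.MP_7ebcb6_ag.CanonicalSelfIntersection
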