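import Pool.Agent.Y148.OD.Facts2
import Pool.Agent.Y148.OD.PairTrans

/-!
# The dimension of the relation of rational equivalence on `Xⁿ × Xⁿ`

`X` is an irreducible projective surface over the complex numbers (it need not be non-singular),
`γ : Xⁿ → B(X)` maps `(x_1, …, x_n)` to the class of the zero-cycle `[x_1] + … + [x_n]` modulo
rational equivalence, and `d_n = 2n - min {dim F : F a fibre of γ}`.  The following are equivalent:

1. `B(X)` is finite-dimensional: the integers `d_n` are bounded;
2. `d_n < 2n` for one `n`;
3. for one pair `n`, `m` there is one fibre of the difference map `Xⁿ × Xᵐ → B(X)`,
   `(x, y) ↦ γ(x) - γ(y)`, of dimension greater than `n + m`;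
4. for one `n` the set `R_n` of the pairs `(x, y)` in `Xⁿ × Xⁿ` with `γ(x) = γ(y)` has
   dimension greater than `2n`;
5. for one `n` and one `i` the set of the points `x` of `Xⁿ` such that the fibre of `γ` through `x`
   has dimension at least `i` has dimension greater than `2n - i`.

So if `B(X)` is infinite-dimensional then `d_n = 2n` for all `n`, the relation of rational
equivalence `R_n` has the smallest possible dimension `2n`, all the fibres of the difference maps
(in particular of `γ`: `m = 0`) have dimension at most half of the dimension of `Xⁿ × Xᵐ`, and the
zero-cycles which move in families of dimension `i` have codimension at least `i`.  For non-singular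
surfaces with a non-zero holomorphic 2-form bounds of this kind follow from Mumford's theorem
(families of rationally equivalent zero-cycles are isotropic for the 2-form); here they are proved
for all surfaces with infinite-dimensional `B(X)`, without forms.  For a surface with `p_g = 0`
Bloch's conjecture is equivalent to the existence of one `n` with `dim R_n > 2n`.

## The definitions

A closed subset of projective space is given by homogeneous polynomials (`IsClosedSet`).  The
dimension of a countable union of closed sets of families of points is measured by the number of
algebraically independent ratios of homogeneous coordinates over arbitrary countable fields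
(`DimGE`, `dim`).  Two effective zero-cycles of degree `n` are joined (`Joined`) if they are the
values at `0` and `∞` of a morphism from the projective line to the symmetric product `Sⁿ(X)`, which
is described by Chow forms; the group `B X` is the free abelian group on `X` modulo the differences
of joined zero-cycles.

## The proof

All the statements on rational equivalence used are proved in the imported files.  Assume that
`B(X)` is infinite-dimensional.

* All the fibres of `γ` have dimension at most `n`: otherwise, by a count of transcendence degrees,
  a part of the generic point of a large fibre is a generic zero-cycle which moves; then all
  zero-cycles can be moved to a hyperplane section up to a bounded part, and the zero-cycles on a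
  curve are bounded (generic zero-cycles of large degree on a curve move).
* Let `γ(x) = γ(y)` and let `i` be the dimension of the fibre of `γ` through `x`.  For every set of
  `b` of the points of the generic point `z` of this fibre, the fibre of `γ` through these points
  has dimension at most `b`; hence there are `i` of the points of `z` such that generic hyperplanes
  through them are independent generic hyperplanes.  Specialising them to one fixed hyperplane,
  one finds in the fibre a zero-cycle with `i` points on a fixed curve.  These `i` points can be
  replaced by a zero-cycle of bounded transcendence degree `q`.  So `x` and `y` are in the fibre of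
  a zero-cycle which depends on at most `2(n - i) + q` parameters, and
  `dim R_n ≤ 2(n - i) + q + 2i = 2n + q`.
* A product of `s` copies of `R_n` is contained in `R_{sn}`, so `s · dim R_n ≤ 2sn + q` for all `s`.
* If the fibres `F` of the difference map over `b` have dimension greater than `n + m`, the map
  `((x, y), (x', y')) ↦ ((x, y'), (x', y))` maps `F × F` to `R_{n + m}`.
-/

set_option autoImplicit false

namespace Pool.Agent.Results.MP_7ebcb6_ag.LargeDifferenceFibres

open Pool.Agent.Y148.OD

/-- **One large fibre of a difference map.** For an irreducible projective surface `X` over the complex
numbers the following are equivalent: the integers `d_n` are bounded (`B(X)` is finite-dimensional);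
`d_n < 2n` for one `n`; for one `n` and one `m` one fibre of the difference map `Xⁿ × Xᵐ → B(X)` has
dimension greater than `n + m`; for one `n` the set of the pairs in `Xⁿ × Xⁿ` with the same
class has dimension greater than `2n`; for one `n` and one `i` the set of the points of `Xⁿ` on
fibres of dimension at least `i` has dimension greater than `2n - i`. -/
theorem result {r : ℕ} {X : Set (Pt r)} (hX : IsVariety X 2) :
    List.TFAE
      [∃ c : ℕ, ∀ n : ℕ, dn X 2 n ≤ c,
       ∃ n : ℕ, dn X 2 n < 2 * n,
       ∃ (n m : ℕ) (b : B X), n + m < dim (diffFibre X n m b),
       ∃ n : ℕ, 2 * n < dim (equivPairs X n),
       ∃ n i : ℕ, 2 * n - i < dim (largeLocus X n i)] :=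
  pairs_surface_tfae stmComp stmCurve stmStab stmDist hX

end Pool.Agent.Results.MP_7ebcb6_ag.LargeDifferenceFibres
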