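import Pool.Agent.Y111.BC.Supp

open CategoryTheory AlgebraicGeometry

universe u v w

open Pool.Agent.H914 Pool.Agent.H914.VarClass Pool.Agent.W492.BB Pool.Agent.TH133
  Pool.Agent.Y152.AS Pool.Agent.Y110.BP Pool.Agent.Y111.BC

/-- Let `X` be a smooth projective surface with `p_g = 0` over a universal domain (that is, the
class of the diagonal is the class of a degenerate correspondence), and let `T(X)` be the Albanese
kernel of `CH_0(X)_ℚ`. The following are equivalent: `T(X) = 0` (Bloch's conjecture for `X`);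
for all varieties `Y` all `t × b`, `t ∈ T(X)`, `b` a zero-cycle of degree zero on `Y`, are zero in
`CH_0(X × Y)_ℚ`; the same for one irregular variety `Y` (for example an elliptic curve); for one
irregular variety `Y` all these `t × b` are supported on a fixed closed subset of `X × Y` of
dimension at most one.

Moreover, for all varieties `W`, `S`, all irregular varieties `Y` and all zero-cycles `t` on `W`
and `s` on `S`: if `t × b = 0` and `s × b = 0` for all zero-cycles `b` of degree zero on `Y`, then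
`t × s = 0` in `CH_0(W × S)_ℚ`. All curves of genus at least one are irregular. -/
theorem Pool.Agent.Results.MP_7ebcb6_ag.ProductsWithIrregularVarieties.result {k : Type u}
    [Field k] {𝒱 : VarClass k} {C : TheoryData.{u, v, 0} 𝒱 ℚ} [IsChowProj C] {K : Type w} [Field K]
    (H : WeilTheoryData.{u, v, w} C K) [IsWeilProj H] (hF : ClassicalFacts H)
    (hcurves : CurvesGenerate C) :
    (∀ X : 𝒱.Obj, X.dim = 2 → IsHomDegenerate H (C.graph (𝟙 X)) →
      (∃ Y : 𝒱.Obj, IsIrregular C Y) → List.TFAE [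
        ∀ t : C.A X, InAlbKer C t → t = 0,
        ∀ (Y : 𝒱.Obj) (t : C.A X), InAlbKer C t → KilledBy C t Y,
        ∃ Y : 𝒱.Obj, IsIrregular C Y ∧ ∀ t : C.A X, InAlbKer C t → KilledBy C t Y,
        ∃ Y : 𝒱.Obj, IsIrregular C Y ∧ ProductsOnCurves C X Y]) ∧
    (∀ (W S Y : 𝒱.Obj) (t : C.A W) (s : C.A S), C.Deg W.dim t → IsIrregular C Y →
      KilledBy C t Y → KilledBy C s Y → C.ext t s = 0) ∧
    (∀ (Y : 𝒱.Obj) (g : ℕ), Y.dim = 1 → 1 ≤ g →
      DegreeIs C (C.mul (C.graph (𝟙 Y)) (C.graph (𝟙 Y))) (2 - 2 * (g : ℚ)) →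
      IsIrregular C Y) :=
  ⟨fun X hX hpg hex => main' H hF hcurves X hX hpg hex,
    fun _ _ _ _ _ ht hY h1 h2 => ext_eq_zero hF.bloch_srinivas hY ht h1 h2,
    fun _ _ hY hg hd => irregular_of_genus hY hg hd⟩
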