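import Pool.Agent.Y110.BP.Main

open CategoryTheory AlgebraicGeometry

universe u v w

open Pool.Agent.H914 Pool.Agent.W492.BB Pool.Agent.TH133 Pool.Agent.Y152.AS Pool.Agent.Y110.BP

/-- Let `X` be a smooth projective surface with `p_g = 0` over a universal domain (that is, the
class of the diagonal is the class of a degenerate correspondence), and let `T(X)` be the Albanese
kernel of `CH_0(X)_ℚ`. The following are equivalent: `T(X) = 0` (Bloch's conjecture for `X`);
`t × t = 0` in `CH_0(X × X)_ℚ` for all `t ∈ T(X)`; the zero-cycles `t × t`, `t ∈ T(X)`, are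
supported on a fixed closed subset of `X × X` of dimension at most two; the symmetric zero-cycles
on `X × X` are supported on a closed subset of dimension at most two; all zero-cycles on `X × X`
are. -/
theorem Pool.Agent.Results.MP_7ebcb6_ag.SquaresOfZeroCycles.result {k : Type u} [Field k]
    {𝒱 : VarClass k} {C : TheoryData.{u, v, 0} 𝒱 ℚ} [IsChowProj C] {K : Type w} [Field K]
    (H : WeilTheoryData.{u, v, w} C K) [IsWeilProj H] (hF : ClassicalFacts H)
    (hcurves : CurvesGenerate C) (X : 𝒱.Obj) (hX : X.dim = 2)
    (hpg : IsHomDegenerate H (C.graph (𝟙 X))) :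
    List.TFAE [
      ∀ t : C.A X, InAlbKer C t → t = 0,
      ∀ t : C.A X, InAlbKer C t → C.ext t t = 0,
      SquaresOnSurface C (C.graph (𝟙 X)),
      SymZeroCyclesOnSurface C X,
      ZeroCyclesOnSurface C (X.prod X)] :=
  main H hF hcurves X hX hpg
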